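import Pool.Agent.H459.AV.All
import Pool.Agent.H459.AV.Biso

/-!
# The average rank of all elliptic curves over every number field is bounded (helper459)

Let `F` be a number field and `N(Y)` the number of minimal pairs `(a, b)` of height at most `Y`
(`Crv Y (a, b)`: exactly the family and the height of the problem). Then there is a constant `C` such that
for all large `Y`

* the sum of `2 ^ rank` and the sum of the ranks over all the curves of height at most `Y` (or over any set of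
  such curves) are at most `C N(Y)`;
* the sum of `#Sel₂` over those without a point of order two over `F` is at most `C N(Y)`, and at most
  `C Y ^ (-[F:ℚ]/3) N(Y)` of the curves have a point of order two over `F`;
* for every `R`, at most `C 2 ^ (-R) N(Y)` of all the curves have rank at least `R`.

With the help of helpers 225, 307 and 894 (descent by a 2-isogeny, size of `F(S, 2)`, number of prime divisors).
-/

set_option autoImplicit false

open Polynomial NumberField IsDedekindDomain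
open scoped Classical

namespace Pool.Agent.Results.MP_7cad78_nt.AverageRankEveryNumberField

open Pool.Agent.N783.PF (Crv)
open Pool.Agent.N874.PP (sW)
open Pool.Agent.H459.AV (NoTwo rk s2 Sel2)

theorem result (F : Type) [Field F] [NumberField F] :
    (∀ Y : ℝ, {p : 𝓞 F × 𝓞 F | Crv Y p}.Finite) ∧
    (∀ p : 𝓞 F × 𝓞 F, NoTwo p → Finite (Sel2 (sW (p.1 : F) (p.2 : F))) ∧ 2 ^ rk p ≤ s2 p) ∧
    ∃ C : ℝ, 0 < C ∧ ∃ Y₀ : ℝ, ∀ Y ≥ Y₀, 0 < {p : 𝓞 F × 𝓞 F | Crv Y p}.ncard ∧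
    (∀ T : Finset (𝓞 F × 𝓞 F), (∀ p ∈ T, Crv Y p) →
      ∑ p ∈ T, (2 : ℝ) ^ rk p ≤ C * ({p : 𝓞 F × 𝓞 F | Crv Y p}.ncard : ℝ) ∧
      ∑ p ∈ T, (rk p : ℝ) ≤ C * ({p : 𝓞 F × 𝓞 F | Crv Y p}.ncard : ℝ) ∧
      ((∀ p ∈ T, NoTwo p) → ∑ p ∈ T, (s2 p : ℝ) ≤ C * ({p : 𝓞 F × 𝓞 F | Crv Y p}.ncard : ℝ))) ∧
    (({p : 𝓞 F × 𝓞 F | Crv Y p ∧ ¬ NoTwo p}.ncard : ℝ) ≤
      C * Y ^ (-(Module.finrank ℚ F : ℝ) / 3) * ({p : 𝓞 F × 𝓞 F | Crv Y p}.ncard : ℝ)) ∧
    ∀ R : ℕ, ({p : 𝓞 F × 𝓞 F | Crv Y p ∧ R ≤ rk p}.ncard : ℝ) ≤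
      C / 2 ^ R * ({p : 𝓞 F × 𝓞 F | Crv Y p}.ncard : ℝ) :=
  Pool.Agent.H459.AV.all Pool.Agent.H307.AV2.iso F

end Pool.Agent.Results.MP_7cad78_nt.AverageRankEveryNumberField
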