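import Pool.Agent.H458.AU.Final

/-!
# Finite sets of quadratic twists with rank zero, for almost all elliptic curves over a number field

Let `F` be ANY number field, and `N(X)` the number of the pairs `(A, B)` of the problem (minimal integral
equations `y ^ 2 = x ^ 3 + A x + B` of elliptic curves over `F`) of height at most `X`. For `p = (A, B)` and
`d ∈ 𝓞 F`, `d ≠ 0`, the curve `y ^ 2 = x ^ 3 + A d ^ 2 x + B d ^ 3` is the quadratic twist `E_p^d`.

**Theorem.** Let `W ≥ 1`, let `𝒮` be a finite set of nonzero integers of `F` and `ε > 0`. There are a FINITE set `𝒟`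
of squarefree natural numbers `D ≡ 1 mod 8 W`, with `1 ∈ 𝒟`, and a multiple `R` of `W` and of all `D ∈ 𝒟`, such
that for all large `X`:

(1) For all but `ε N(X)` of ALL the curves `E` of height at most `X` the following holds for every `d ∈ 𝒮`: there is
`D ∈ 𝒟` such that over `M = F`, and, more generally, over ALL Galois extensions `M / F` of 2-power degree in which the
primes dividing `R` split completely, which are unramified at the primes of `F` modulo which the cubic
`x ^ 3 + A d ^ 2 x + B d ^ 3` of `E ^ d` has a zero, and in which the real places of `F` at which `4 A ^ 3 + 27 B ^ 2` is negative have a real place above them, the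
twist `E ^ (d D)` has trivial 2-Selmer group, no element of order two in the Tate-Shafarevich group, and finitely many
points over `M`, an odd number: its rank over `M` is `0`.

(2) The average, over ALL curves `E` of height at most `X`, of the smallest of the ranks over `F` of the twists
`E ^ (d D)`, `D ∈ 𝒟`, is at most `ε`, for every `d ∈ 𝒮`.

(3) Let `ω(X)` be ANY function which tends to infinity. The proportion of the curves `E` of height at most `X` for which
for every `d ∈ 𝒮` there is a squarefree `D ≤ ω(X)`, `D ≡ 1 mod 8 W`, such that `E ^ (d D)` has trivial 2-Selmer group,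
no element of order two in the Tate-Shafarevich group and rank `0` over `F`, tends to `1`.

So every elliptic curve over `F`, with the exception of a proportion `ε`, has rank zero after a twist by one of
finitely many numbers, which do not depend on the curve; they can be taken `1` modulo every given number, and
the same set works for all the twists `E ^ d`, `d ∈ 𝒮`.

The proof. By a theorem of the library (after Bhargava, Gross, Bhargava-Shankar, Mazur-Rubin; helper459 in this run for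
all residue classes) `E` has such a twist by a product of primes in `S` if `E` is good at all the primes `q ∈ S` (its
cubic has exactly one zero modulo one prime of degree one over `q`, and none modulo the others) and not in an exceptional
set with at most `C 2 ^ (- # S)` of these `E` as elements, `C` independent of `S`. The new idea is to choose `S`
depending on `E`: take `k` disjoint blocks of primes such that the expected number of good primes in each block is large.
All but few `E` have at least `9 / 10` of this number of good primes in every block; if `E` is exceptional for ALL the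
transversals `S` of its good primes, then it is counted very often, and the number of these `E` is at most
`C (5 / 9) ^ k N(X)`. This needs the divergence of the sum of `1 / q` over the primes `q ≡ 1 mod 8 W` with a prime of degree
one in `F`, a lower bound for the density of the good residues, and Chebyshev's inequality in boxes. For (2) this is
combined with the bound for the average of `2 ^ rank` of all curves (helper459), also for the twists by `d`.
Parts of the proof are by helpers 294, 337, 348, 350, 549, 650, 653, 665, 747, 975 and 980.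
-/

set_option autoImplicit false
set_option linter.all false

open Polynomial NumberField IsDedekindDomain Filter
open scoped Classical

namespace Pool.Agent.Results.MP_7cad78_nt.FiniteSetsOfTwists

open Pool.Agent.N874.PP (sW)
open Pool.Agent.TH115.GD (Pt)
open Pool.Agent.N874.QM (SelC ShaC)

section defs

variable {F : Type} [Field F] [NumberField F]

variable (F) in
/-- The pairs `(A, B)` of the problem of height at most `X`. -/
def Curves (X : ℝ) : Set (𝓞 F × 𝓞 F) :=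
  {p | 4 * p.1 ^ 3 + 27 * p.2 ^ 2 ≠ 0 ∧
    (∀ 𝔭 : Ideal (𝓞 F), 𝔭.IsPrime → 𝔭 ≠ ⊥ → ¬ (p.1 ∈ 𝔭 ^ 4 ∧ p.2 ∈ 𝔭 ^ 6)) ∧
    ∀ σ : F →+* ℂ, 4 * ‖σ (p.1 : F)‖ ^ 3 ≤ X ∧ 27 * ‖σ (p.2 : F)‖ ^ 2 ≤ X}

/-- The quadratic twist by `d`. -/
def twist (p : 𝓞 F × 𝓞 F) (d : 𝓞 F) : 𝓞 F × 𝓞 F := (p.1 * d ^ 2, p.2 * d ^ 3)

/-- The curve `y ^ 2 = x ^ 3 + A x + B` over the extension `M` of `F`, `p = (A, B)`. -/
noncomputable def curve (M : Type) [Field M] [Algebra F M] (p : 𝓞 F × 𝓞 F) : WeierstrassCurve M :=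
  sW (algebraMap F M (p.1 : F)) (algebraMap F M (p.2 : F))

/-- The rank over `F`. -/
noncomputable def rank (p : 𝓞 F × 𝓞 F) : ℕ := Module.finrank ℤ (Pt (sW (p.1 : F) (p.2 : F)) F)

/-- The smallest of the ranks over `F` of the twists by the numbers in `𝒟`. -/
noncomputable def minRank (𝒟 : Finset ℕ) (p : 𝓞 F × 𝓞 F) : ℕ :=
  sInf {r : ℕ | ∃ D ∈ 𝒟, r = rank (twist p (D : 𝓞 F))}

/-- `M / F` is unramified at `v`. -/
def Unramified (v : HeightOneSpectrum (𝓞 F)) (M : Type) [Field M] [NumberField M] [Algebra F M] : Prop :=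
  ∀ w : HeightOneSpectrum (𝓞 M), v.asIdeal.map (algebraMap (𝓞 F) (𝓞 M)) ≤ w.asIdeal →
    ¬ v.asIdeal.map (algebraMap (𝓞 F) (𝓞 M)) ≤ w.asIdeal ^ 2

/-- `v` splits completely in `M`: it is unramified and all integers of `M` are congruent to integers of
`F` modulo every prime over `v`. -/
def SplitsCompletely (v : HeightOneSpectrum (𝓞 F)) (M : Type) [Field M] [NumberField M]
    [Algebra F M] : Prop :=
  Unramified v M ∧
  ∀ w : HeightOneSpectrum (𝓞 M), v.asIdeal.map (algebraMap (𝓞 F) (𝓞 M)) ≤ w.asIdeal →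
    ∀ y : 𝓞 M, ∃ c : 𝓞 F, y - algebraMap (𝓞 F) (𝓞 M) c ∈ w.asIdeal

/-- The extensions `M / F` which belong to the integer `R` and the curve `p = (A, B)`. -/
structure InClass (R : ℕ) (p : 𝓞 F × 𝓞 F) (M : Type) [Field M] [NumberField M] [Algebra F M] : Prop where
  galois : IsGalois F M
  degree : ∃ n : ℕ, Module.finrank F M = 2 ^ n
  split : ∀ v : HeightOneSpectrum (𝓞 F), (R : 𝓞 F) ∈ v.asIdeal → SplitsCompletely v M
  unramified : ∀ v : HeightOneSpectrum (𝓞 F), (∃ t : 𝓞 F, t ^ 3 + p.1 * t + p.2 ∈ v.asIdeal) →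
    Unramified v M
  real : ∀ σ : F →+* ℝ, 0 < σ ((4 * p.1 ^ 3 + 27 * p.2 ^ 2 : 𝓞 F) : F) ∨
    ∃ ρ : M →+* ℝ, ρ.comp (algebraMap F M) = σ

/-- The curve `p` has trivial 2-Selmer group, no element of order two in the Tate-Shafarevich group, and
finitely many points over `M`, an odd number. -/
structure Trivial (M : Type) [Field M] [NumberField M] [Algebra F M] (p : 𝓞 F × 𝓞 F) : Prop where
  selmer : SelC (curve M p)
  sha : ShaC (curve M p)
  finite : Finite (Pt (curve M p) M)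
  odd : Odd (Nat.card (Pt (curve M p) M))

/-- One of the twists of `p` by the numbers in `𝒟` is trivial over all extensions in the class. -/
def HasTwist (R : ℕ) (𝒟 : Finset ℕ) (p : 𝓞 F × 𝓞 F) : Prop :=
  ∃ D ∈ 𝒟, ∀ (M : Type) [Field M] [NumberField M] [Algebra F M], InClass R p M →
    Trivial M (twist p (D : 𝓞 F))

end defs

section pf

open Pool.Agent.H459.UF (Unr Deg1 GoodM)
open Pool.Agent.H458.AU (ClsM Tw twp mr)

variable {F : Type} [Field F] [NumberField F]

theorem unr_of {M : Type} [Field M] [NumberField M] [Algebra F M] {v : HeightOneSpectrum (𝓞 F)}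
    (h : Unramified v M) : Unr F M v := fun P hP =>
  h P (hP.trans (Ideal.pow_le_self two_ne_zero)) hP

theorem of_unr {M : Type} [Field M] [NumberField M] [Algebra F M] {v : HeightOneSpectrum (𝓞 F)}
    (h : Unr F M v) : Unramified v M := fun P _ hP => h P hP

theorem has_of {R : ℕ} {𝒟 : Finset ℕ} {p : 𝓞 F × 𝓞 F} (h : Tw R 𝒟 p) : HasTwist R 𝒟 p := by
  obtain ⟨D, hD, h⟩ := h
  refine ⟨D, hD, fun M _ _ _ hM => ?_⟩
  haveI := hM.galois
  obtain ⟨n, hn⟩ := hM.degree
  obtain ⟨h1, h2, h3, h4⟩ := h M n hn ⟨fun v hv => ⟨unr_of (hM.split v hv).1, (hM.split v hv).2⟩,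
    fun v hv => unr_of (hM.unramified v hv), hM.real⟩
  exact ⟨h1, h2, h3, h4⟩

end pf

theorem part1 (F : Type) [Field F] [NumberField F] (W : ℕ) (hW : 0 < W) (𝒮 : Finset (𝓞 F))
    (h𝒮 : ∀ d ∈ 𝒮, d ≠ 0) (ε : ℝ) (hε : 0 < ε) :
    (∀ X : ℝ, (Curves F X).Finite) ∧
    ∃ (R : ℕ) (𝒟 : Finset ℕ), 0 < R ∧ W ∣ R ∧ 1 ∈ 𝒟 ∧
      (∀ D ∈ 𝒟, Squarefree D ∧ D ≡ 1 [MOD 8 * W] ∧ D ∣ R) ∧
      (∀ p : 𝓞 F × 𝓞 F, InClass R p F) ∧
      ∀ᶠ X : ℝ in atTop, 0 < (Curves F X).ncard ∧
        (({p ∈ Curves F X | ∃ d ∈ 𝒮, ¬ HasTwist R 𝒟 (twist p d)}.ncard : ℝ) ≤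
          ε * ((Curves F X).ncard : ℝ)) ∧
        ∀ d ∈ 𝒮, ∑ᶠ (p : 𝓞 F × 𝓞 F) (_ : p ∈ Curves F X), (minRank 𝒟 (twist p d) : ℝ) ≤
          ε * ((Curves F X).ncard : ℝ) := by
  have heq : ∀ X, Curves F X = {p : 𝓞 F × 𝓞 F | Pool.Agent.N783.PF.Crv X p} := by
    intro X
    ext p
    exact ⟨fun h => ⟨h.1, h.2.1, h.2.2⟩, fun h => ⟨h.disc, h.min, h.ht⟩⟩
  have hfin : ∀ X : ℝ, (Curves F X).Finite := by
    intro X
    rw [heq]
    exact Pool.Agent.N61.PF.crv_finite Pool.Agent.N490.PF.pts X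
  obtain ⟨R, 𝒟, hR, hWR, h1, hD, Y₀, hY⟩ := Pool.Agent.H458.AU.final F W hW 𝒮 h𝒮 ε hε
  refine ⟨hfin, R, 𝒟, hR, hWR, h1, hD, fun p => ?_, ?_⟩
  · have h2 := Pool.Agent.H458.AU.cls_self R p
    exact ⟨inferInstance, ⟨0, by rw [Module.finrank_self, pow_zero]⟩, fun v hv =>
      ⟨of_unr (h2.spl v hv).1, (h2.spl v hv).2⟩, fun v hv => of_unr (h2.unr v hv), h2.real⟩
  filter_upwards [eventually_ge_atTop Y₀] with X hX
  obtain ⟨h2, h3, h4⟩ := hY X hX
  rw [← heq] at h2 h3 h4
  refine ⟨h2, ?_, fun d hd => ?_⟩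
  · refine le_trans ?_ h3
    have hsub : {p ∈ Curves F X | ∃ d ∈ 𝒮, ¬ HasTwist R 𝒟 (twist p d)} ⊆
        {p : 𝓞 F × 𝓞 F | Pool.Agent.N783.PF.Crv X p ∧
          ∃ d ∈ 𝒮, ¬ Pool.Agent.H458.AU.Tw R 𝒟 (Pool.Agent.H458.AU.twp p d)} := by
      rintro p ⟨hp, d, hd, h⟩
      rw [heq] at hp
      exact ⟨hp, d, hd, fun h' => h (has_of h')⟩
    have := Set.ncard_le_ncard hsub ((hfin X).subset fun p hp => by
      rw [heq]
      exact hp.1)
    exact_mod_cast this
  · rw [finsum_mem_eq_finite_toFinset_sum _ (hfin X)]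
    refine h4 (hfin X).toFinset (fun p hp => ?_) d hd
    have := (hfin X).mem_toFinset.1 hp
    rwa [heq] at this

/-- **Bounded twists with rank zero for almost all elliptic curves over a number field.** -/
theorem result (F : Type) [Field F] [NumberField F] (W : ℕ) (hW : 0 < W) (𝒮 : Finset (𝓞 F))
    (h𝒮 : ∀ d ∈ 𝒮, d ≠ 0) :
    (∀ X : ℝ, (Curves F X).Finite) ∧
    -- one finite set of twists for all but `ε` of all the curves
    (∀ ε : ℝ, 0 < ε → ∃ (R : ℕ) (𝒟 : Finset ℕ), 0 < R ∧ W ∣ R ∧ 1 ∈ 𝒟 ∧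
      (∀ D ∈ 𝒟, Squarefree D ∧ D ≡ 1 [MOD 8 * W] ∧ D ∣ R) ∧
      (∀ p : 𝓞 F × 𝓞 F, InClass R p F) ∧
      ∀ᶠ X : ℝ in atTop, 0 < (Curves F X).ncard ∧
        (({p ∈ Curves F X | ∃ d ∈ 𝒮, ¬ HasTwist R 𝒟 (twist p d)}.ncard : ℝ) ≤
          ε * ((Curves F X).ncard : ℝ)) ∧
        ∀ d ∈ 𝒮, ∑ᶠ (p : 𝓞 F × 𝓞 F) (_ : p ∈ Curves F X), (minRank 𝒟 (twist p d) : ℝ) ≤
          ε * ((Curves F X).ncard : ℝ)) ∧
    -- 100 percent of the curves have a twist by a number below any function which tends to infinity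
    ∀ ω : ℝ → ℝ, Tendsto ω atTop atTop →
      Tendsto (fun X : ℝ => ({p ∈ Curves F X | ∀ d ∈ 𝒮, ∃ D : ℕ, Squarefree D ∧ D ≡ 1 [MOD 8 * W] ∧
        (D : ℝ) ≤ ω X ∧ Trivial F (twist (twist p d) (D : 𝓞 F)) ∧
        rank (twist (twist p d) (D : 𝓞 F)) = 0}.ncard : ℝ) / ((Curves F X).ncard : ℝ)) atTop (nhds 1) := by
  have hfin : ∀ X : ℝ, (Curves F X).Finite := (part1 F W hW 𝒮 h𝒮 1 one_pos).1
  refine ⟨hfin, fun ε hε => (part1 F W hW 𝒮 h𝒮 ε hε).2, fun ω hω => ?_⟩
  rw [Metric.tendsto_atTop]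
  intro ε hε
  obtain ⟨-, R, 𝒟, hR, hWR, h1, hD, hcl, hX⟩ := part1 F W hW 𝒮 h𝒮 (ε / 2) (half_pos hε)
  obtain ⟨m, hm⟩ : ∃ m : ℕ, ∀ D ∈ 𝒟, D ≤ m := ⟨𝒟.sup id, fun D hD => Finset.le_sup (f := id) hD⟩
  obtain ⟨X₀, hX₀⟩ := eventually_atTop.1 (hX.and (hω.eventually_ge_atTop (m : ℝ)))
  refine ⟨X₀, fun X hXX => ?_⟩
  obtain ⟨⟨hpos, hbad, -⟩, hωX⟩ := hX₀ X hXX
  obtain ⟨G, hG⟩ : ∃ G : Set (𝓞 F × 𝓞 F), G = {p ∈ Curves F X | ∀ d ∈ 𝒮, ∃ D : ℕ, Squarefree D ∧
    D ≡ 1 [MOD 8 * W] ∧ (D : ℝ) ≤ ω X ∧ Trivial F (twist (twist p d) (D : 𝓞 F)) ∧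
    rank (twist (twist p d) (D : 𝓞 F)) = 0} := ⟨_, rfl⟩
  obtain ⟨B, hB⟩ : ∃ B : Set (𝓞 F × 𝓞 F), B = {p ∈ Curves F X | ∃ d ∈ 𝒮,
    ¬ HasTwist R 𝒟 (twist p d)} := ⟨_, rfl⟩
  rw [← hG]
  rw [← hB] at hbad
  have hsub : Curves F X ⊆ G ∪ B := by
    intro p hp
    by_cases h : ∃ d ∈ 𝒮, ¬ HasTwist R 𝒟 (twist p d)
    · right
      rw [hB]
      exact ⟨hp, h⟩
    · left
      push Not at h
      rw [hG]
      refine ⟨hp, fun d hd => ?_⟩
      obtain ⟨D, hD1, h2⟩ := h d hd
      have h3 := h2 F (hcl _)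
      refine ⟨D, (hD D hD1).1, (hD D hD1).2.1, ?_, h3, Pool.Agent.H458.AU.rk_zero h3.finite⟩
      exact le_trans (by exact_mod_cast hm D hD1) hωX
  have hGf : G.Finite := (hfin X).subset (by rw [hG]; exact fun p hp => hp.1)
  have hBf : B.Finite := (hfin X).subset (by rw [hB]; exact fun p hp => hp.1)
  have c1 := Set.ncard_le_ncard hsub (hGf.union hBf)
  have c2 := Set.ncard_union_le G B
  have c3 := Set.ncard_le_ncard (show G ⊆ Curves F X by rw [hG]; exact fun p hp => hp.1) (hfin X)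
  obtain ⟨N, hN⟩ : ∃ N : ℝ, N = ((Curves F X).ncard : ℝ) := ⟨_, rfl⟩
  have hN0 : 0 < N := by rw [hN]; exact_mod_cast hpos
  have c4 : N ≤ G.ncard + B.ncard := by rw [hN]; exact_mod_cast c1.trans c2
  have c5 : (G.ncard : ℝ) ≤ N := by rw [hN]; exact_mod_cast c3
  rw [← hN] at hbad ⊢
  rw [Real.dist_eq, abs_sub_lt_iff]
  constructor
  · have : (G.ncard : ℝ) / N ≤ 1 := (div_le_one hN0).2 c5
    linarith
  · have : 1 - ε / 2 ≤ (G.ncard : ℝ) / N := by
      rw [le_div_iff₀ hN0]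
      linarith
    linarith

end Pool.Agent.Results.MP_7cad78_nt.FiniteSetsOfTwists
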